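import Pool.Agent.H97.CP.Defs

set_option autoImplicit false
set_option linter.unusedSectionVars false

namespace Pool.Agent.H97.CP

open Matrix

variable {I : Type} [Fintype I] [DecidableEq I] {par : I → Bool}

lemma sg_eq (i : I) : sg par i = 1 ∨ sg par i = -1 := by
  unfold sg; split <;> simp

lemma sg_mul_self (i : I) : sg par i * sg par i = 1 := by
  rcases sg_eq (par := par) i with h | h <;> rw [h] <;> norm_num

lemma sgn_mul_self {n : ℕ} (x : Fin n → I) : sgn par x * sgn par x = 1 := by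
  unfold sgn
  rw [← Finset.prod_mul_distrib]
  exact Finset.prod_eq_one fun k _ => sg_mul_self _

lemma sgn_eq {n : ℕ} (x : Fin n → I) : sgn par x = 1 ∨ sgn par x = -1 := by
  have h := sgn_mul_self (par := par) x
  have h2 : (sgn par x - 1) * (sgn par x + 1) = 0 := by linear_combination h
  rcases mul_eq_zero.mp h2 with h | h
  · left; omega
  · right; omega

lemma sgn_cons {n : ℕ} (i : I) (r : Fin n → I) :
    sgn par (Fin.cons i r : Fin (n + 1) → I) = sg par i * sgn par r := by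
  unfold sgn
  rw [Fin.prod_univ_succ]
  simp

lemma sgn_comp {n : ℕ} (x : Fin n → I) (σ : Equiv.Perm (Fin n)) :
    sgn par (x ∘ ⇑σ) = sgn par x := by
  unfold sgn
  exact Equiv.prod_comp σ fun k => sg par (x k)

lemma koszul_inv {n : ℕ} (σ : Equiv.Perm (Fin n)) (x : Fin n → I) :
    koszul par σ⁻¹ (x ∘ ⇑σ⁻¹) = koszul par σ x := by
  unfold koszul
  symm
  refine Fintype.prod_equiv
    ((Equiv.prodComm (Fin n) (Fin n)).trans (Equiv.prodCongr σ σ)) _ _ ?_
  rintro ⟨i, j⟩
  have hk : ∀ k, σ⁻¹ (σ k) = k := fun k => by simp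
  simp only [Equiv.trans_apply, Equiv.prodComm_apply, Prod.swap_prod_mk, Equiv.prodCongr_apply,
    Prod.map_apply, Function.comp_apply, hk]
  refine if_congr ?_ rfl rfl
  tauto

lemma perm_transpose {K : Type} [Ring K] {n : ℕ} (σ : Equiv.Perm (Fin n)) :
    (perm par K σ)ᵀ = perm par K σ⁻¹ := by
  ext x y
  simp only [perm, Matrix.transpose_apply, Matrix.of_apply]
  by_cases h : y = x ∘ ⇑σ⁻¹
  · subst h
    rw [if_pos rfl, if_pos, koszul_inv]
    ext k
    simp
  · rw [if_neg h, if_neg]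
    intro hx
    apply h
    subst hx
    ext k
    simp

lemma koszul_relabel {n : ℕ} (σ : Equiv.Perm (Fin n)) (x : Fin n → I) (τ : Equiv.Perm I)
    (hτ : ∀ i, par (τ i) = par i) : koszul par σ (⇑τ ∘ x) = koszul par σ x := by
  unfold koszul
  simp [hτ]

lemma perm_relabel {K : Type} [Ring K] {n : ℕ} (σ : Equiv.Perm (Fin n)) (y x : Fin n → I)
    (τ : Equiv.Perm I) (hτ : ∀ i, par (τ i) = par i) :
    perm par K σ (⇑τ ∘ y) (⇑τ ∘ x) = perm par K σ y x := by
  simp only [perm, Matrix.of_apply, koszul_relabel σ x τ hτ]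
  refine if_congr ?_ rfl rfl
  constructor
  · intro h
    ext k
    have := congrFun h k
    simpa using this
  · intro h
    rw [h]; rfl

/-- The rational form of `act`. -/
def actQ (par : I → Bool) {n : ℕ} (c : Equiv.Perm (Fin n) → ℚ) :
    Matrix (Fin n → I) (Fin n → I) ℚ := ∑ σ, c σ • perm par ℚ σ

lemma act_apply {K : Type} [Field K] [CharZero K] {n : ℕ} (c : Equiv.Perm (Fin n) → ℚ)
    (y x : Fin n → I) : act par K c y x = ((actQ par c y x : ℚ) : K) := by
  simp only [act, actQ, Matrix.sum_apply, Matrix.smul_apply, smul_eq_mul, perm, Matrix.of_apply]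
  push_cast
  refine Finset.sum_congr rfl fun σ _ => ?_
  split <;> simp

lemma actQ_relabel {n : ℕ} (c : Equiv.Perm (Fin n) → ℚ) (y x : Fin n → I)
    (τ : Equiv.Perm I) (hτ : ∀ i, par (τ i) = par i) :
    actQ par c (⇑τ ∘ y) (⇑τ ∘ x) = actQ par c y x := by
  simp only [actQ, Matrix.sum_apply, Matrix.smul_apply, perm_relabel _ y x τ hτ]

lemma exists_perm_of_ne {n : ℕ} {c : Equiv.Perm (Fin n) → ℚ} {y x : Fin n → I}
    (h : actQ par c y x ≠ 0) : ∃ σ : Equiv.Perm (Fin n), y = x ∘ ⇑σ := by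
  by_contra hc
  push Not at hc
  apply h
  simp only [actQ, Matrix.sum_apply, Matrix.smul_apply, perm, Matrix.of_apply]
  refine Finset.sum_eq_zero fun σ _ => ?_
  rw [if_neg (hc σ⁻¹)]
  simp

lemma sgn_of_ne {n : ℕ} {c : Equiv.Perm (Fin n) → ℚ} {y x : Fin n → I}
    (h : actQ par c y x ≠ 0) : sgn par y = sgn par x := by
  obtain ⟨σ, rfl⟩ := exists_perm_of_ne h
  exact sgn_comp x σ

/-- If two tensors `(i, r)` and `(j, r)` are permutations of the same tensor then `i = j`. -/
lemma head_eq {n : ℕ} {i j : I} {r : Fin n → I} {z : Fin (n + 1) → I}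
    {σ τ : Equiv.Perm (Fin (n + 1))}
    (h1 : z = (Fin.cons i r : Fin (n + 1) → I) ∘ ⇑σ)
    (h2 : z = (Fin.cons j r : Fin (n + 1) → I) ∘ ⇑τ) : i = j := by
  have key : ∀ (k : I) (ρ : Equiv.Perm (Fin (n + 1))),
      z = (Fin.cons k r : Fin (n + 1) → I) ∘ ⇑ρ →
      (∑ m, if z m = i then (1 : ℤ) else 0) =
        (if k = i then 1 else 0) + ∑ m, if r m = i then (1 : ℤ) else 0 := by
    intro k ρ hk
    subst hk
    have := Equiv.sum_comp ρ fun m => if (Fin.cons k r : Fin (n + 1) → I) m = i then (1 : ℤ) else 0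
    simp only [Function.comp_apply]
    rw [this, Fin.sum_univ_succ]
    simp
  have a := key i σ h1
  have b := key j τ h2
  rw [a] at b
  by_contra hne
  rw [if_pos rfl, if_neg (fun h => hne h.symm)] at b
  omega

end Pool.Agent.H97.CP
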