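import Mathlib

set_option autoImplicit false

/-!
# Correspondences on the motives `M ⊗ ... ⊗ M ⊗ N`: permutations and partial traces
-/

namespace Pool.Agent.H97.CP

open Matrix Kronecker

/-- `-1` for an odd class, `1` for an even class. -/
def sg {I : Type} (par : I → Bool) (i : I) : ℤ := if par i then -1 else 1

/-- The sign `(-1)^(number of odd factors)` of a basis tensor. -/
def sgn {I : Type} (par : I → Bool) {n : ℕ} (x : Fin n → I) : ℤ := ∏ k, sg par (x k)

/-- The Koszul sign of the permutation `σ` of the factors of a basis tensor `x`: one factor `-1` for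
each pair of odd factors of `x` whose order is reversed by `σ`. -/
def koszul {I : Type} (par : I → Bool) {n : ℕ} (σ : Equiv.Perm (Fin n)) (x : Fin n → I) : ℤ :=
  ∏ p : Fin n × Fin n,
    if p.1 < p.2 ∧ σ p.2 < σ p.1 ∧ par (x p.1) = true ∧ par (x p.2) = true then -1 else 1

/-- The matrix of the permutation `σ` of the factors on `H ⊗ ... ⊗ H`: the basis tensor `x` goes to
the basis tensor which has the factor `x i` at the place `σ i`, with the Koszul sign. -/
def perm {I : Type} [DecidableEq I] (par : I → Bool) (K : Type) [Ring K] {n : ℕ}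
    (σ : Equiv.Perm (Fin n)) : Matrix (Fin n → I) (Fin n → I) K :=
  Matrix.of fun y x => if y = x ∘ ⇑σ⁻¹ then ((koszul par σ x : ℤ) : K) else 0

/-- The action of an element of the group algebra `ℚ[S_n]` on `H ⊗ ... ⊗ H`. -/
def act {I : Type} [DecidableEq I] (par : I → Bool) (K : Type) [Field K] {n : ℕ}
    (c : Equiv.Perm (Fin n) → ℚ) : Matrix (Fin n → I) (Fin n → I) K :=
  ∑ σ, (c σ : K) • perm par K σ

/-- The even projector of a graded space. -/
def evenProj {I : Type} [DecidableEq I] (par : I → Bool) (K : Type) [Field K] : Matrix I I K :=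
  Matrix.diagonal fun i => if par i = false then 1 else 0

/-- The even projector of `H(M) ⊗ ... ⊗ H(M) ⊗ H(N)`. -/
def evenProjPow {I J : Type} [DecidableEq I] [DecidableEq J] (par : I → Bool) (par' : J → Bool)
    (K : Type) [Field K] (n : ℕ) : Matrix ((Fin n → I) × J) ((Fin n → I) × J) K :=
  Matrix.diagonal fun x => if sgn par x.1 * sg par' x.2 = 1 then 1 else 0

/-- The tensor product of an operator on `H(M)` and an operator on `H(M ^ n ⊗ N)`. -/
def tens {I J K : Type} [Ring K] {n : ℕ} (f : Matrix I I K)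
    (g : Matrix ((Fin n → I) × J) ((Fin n → I) × J) K) :
    Matrix ((Fin (n + 1) → I) × J) ((Fin (n + 1) → I) × J) K :=
  Matrix.of fun y x => f (y.1 0) (x.1 0) * g (Fin.tail y.1, y.2) (Fin.tail x.1, x.2)

/-- The partial supertrace, to the first factor `M` of `M ^ (n + 1) ⊗ N`. -/
def ptr {I J : Type} [Fintype I] [DecidableEq I] [Fintype J] (par : I → Bool) (par' : J → Bool)
    {K : Type} [Ring K] {n : ℕ}
    (f : Matrix ((Fin (n + 1) → I) × J) ((Fin (n + 1) → I) × J) K) : Matrix I I K :=
  Matrix.of fun a b => ∑ r : Fin n → I, ∑ j : J,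
    (((sgn par r * sg par' j : ℤ)) : K) * f (Fin.cons a r, j) (Fin.cons b r, j)

/-- The partial supertrace, to the factor `N` of `M ^ n ⊗ N`. -/
def ptrN {I J : Type} [Fintype I] [DecidableEq I] (par : I → Bool) {K : Type} [Ring K] {n : ℕ}
    (f : Matrix ((Fin n → I) × J) ((Fin n → I) × J) K) : Matrix J J K :=
  Matrix.of fun a b => ∑ x : Fin n → I, ((sgn par x : ℤ) : K) * f (x, a) (x, b)

/-- The algebraic classes for the motives `M ^ n ⊗ N` (`M`, `N` homological motives with rational
coefficients, for instance the motives of two smooth proper varieties; the cohomology has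
coefficients in `K`). `I`, `J` are homogeneous bases of the total cohomology of `M` and of `N`,
`par`, `par'` say which basis elements have odd degree; the pairs `(x, j)` with `x : Fin n → I` and
`j : J` are a basis of the total cohomology of `M ^ n ⊗ N`. The sets `clsM`, `clsN`, `cls n` are the
sets of matrices of the endomorphisms (classes of rational cycles, of degree `0`) of the motives
`M`, `N`, `M ^ n ⊗ N`. -/
structure Corr (K : Type) [Field K] (I J : Type) [Fintype I] [DecidableEq I] [Fintype J]
    [DecidableEq J] (par : I → Bool) (par' : J → Bool) where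
  clsM : Set (Matrix I I K)
  clsN : Set (Matrix J J K)
  cls : (n : ℕ) → Set (Matrix ((Fin n → I) × J) ((Fin n → I) × J) K)
  oneM_mem : 1 ∈ clsM
  addM_mem : ∀ f g, f ∈ clsM → g ∈ clsM → f + g ∈ clsM
  smulM_mem : ∀ (q : ℚ) f, f ∈ clsM → (q : K) • f ∈ clsM
  oneN_mem : 1 ∈ clsN
  addN_mem : ∀ f g, f ∈ clsN → g ∈ clsN → f + g ∈ clsN
  smulN_mem : ∀ (q : ℚ) f, f ∈ clsN → (q : K) • f ∈ clsN
  add_mem : ∀ n f g, f ∈ cls n → g ∈ cls n → f + g ∈ cls n
  smul_mem : ∀ n (q : ℚ) f, f ∈ cls n → (q : K) • f ∈ cls n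
  mul_mem : ∀ n f g, f ∈ cls n → g ∈ cls n → f * g ∈ cls n
  /-- the permutations of the factors `M` of `M ^ n ⊗ N` -/
  perm_mem : ∀ n (σ : Equiv.Perm (Fin n)), perm par K σ ⊗ₖ (1 : Matrix J J K) ∈ cls n
  /-- endomorphisms of `N = M ^ 0 ⊗ N` -/
  zero_mem : ∀ g, g ∈ clsN → (1 : Matrix (Fin 0 → I) (Fin 0 → I) K) ⊗ₖ g ∈ cls 0
  /-- products of cycles -/
  tens_mem : ∀ n f g, f ∈ clsM → g ∈ cls n → tens f g ∈ cls (n + 1)
  /-- intersection with diagonals and projection -/
  ptr_mem : ∀ n f, f ∈ cls (n + 1) → ptr par par' f ∈ clsM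
  ptrN_mem : ∀ n f, f ∈ cls n → ptrN par f ∈ clsN

namespace Corr

variable {K : Type} [Field K] {I J : Type} [Fintype I] [DecidableEq I] [Fintype J]
  [DecidableEq J] {par : I → Bool} {par' : J → Bool}

/-- `C⁺(M)`: the even projector of `M` is the class of a rational cycle. -/
def CplusM (W : Corr K I J par par') : Prop := evenProj par K ∈ W.clsM

/-- `C⁺(N)`. -/
def CplusN (W : Corr K I J par par') : Prop := evenProj par' K ∈ W.clsN

/-- For `c` in the group algebra of `S_n`: the product of the even projector of `M ^ n ⊗ N` and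
`c ⊗ 1` is the class of a rational cycle. If `c` is idempotent this is `C⁺` for the motive
`c(M ^ n) ⊗ N`. -/
def CplusOn (W : Corr K I J par par') {n : ℕ} (c : Equiv.Perm (Fin n) → ℚ) : Prop :=
  evenProjPow par par' K n * (act par K c ⊗ₖ (1 : Matrix J J K)) ∈ W.cls n

end Corr

end Pool.Agent.H97.CP
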