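import Pool.Agent.H97.CP.Basic

set_option autoImplicit false
set_option linter.unusedSectionVars false

namespace Pool.Agent.H97.CP

open Matrix Kronecker

variable {K : Type} [Field K] [CharZero K] {I : Type} [Fintype I] [DecidableEq I] {par : I → Bool}
  {J : Type} [Fintype J] [DecidableEq J] {par' : J → Bool}

/-- The sign of a basis element of `M ^ n ⊗ N`. -/
def sgp (par : I → Bool) (par' : J → Bool) {n : ℕ} (x : (Fin n → I) × J) : ℤ :=
  sgn par x.1 * sg par' x.2

lemma sgp_eq {n : ℕ} (x : (Fin n → I) × J) : sgp par par' x = 1 ∨ sgp par par' x = -1 := by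
  unfold sgp
  rcases sgn_eq (par := par) x.1 with h | h <;> rcases sg_eq (par := par') x.2 with h' | h' <;>
    rw [h, h'] <;> norm_num

/-- The diagonal sign operator of `M ^ n ⊗ N`. -/
def signOp (par : I → Bool) (par' : J → Bool) (K : Type) [Field K] (n : ℕ) :
    Matrix ((Fin n → I) × J) ((Fin n → I) × J) K :=
  Matrix.diagonal fun x => ((sgp par par' x : ℤ) : K)

/-- The sign operator of a graded space. -/
def signOne (par : I → Bool) (K : Type) [Field K] : Matrix I I K :=
  Matrix.diagonal fun i => ((sg par i : ℤ) : K)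

lemma evenProj_eq : evenProj par K = ((1 / 2 : ℚ) : K) • (1 + signOne par K) := by
  ext x y
  by_cases h : x = y
  · subst h
    simp only [evenProj, signOne, Matrix.diagonal_apply_eq, Matrix.smul_apply, Matrix.add_apply,
      Matrix.one_apply_eq, smul_eq_mul, sg]
    cases par x
    · simp; norm_num
    · simp
  · simp [evenProj, signOne, Matrix.diagonal_apply_ne _ h, Matrix.one_apply_ne h]

lemma signOne_eq :
    signOne par K = ((2 : ℚ) : K) • evenProj par K + (((-1 : ℚ)) : K) • 1 := by
  rw [evenProj_eq]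
  ext x y
  simp only [Matrix.smul_apply, Matrix.add_apply, smul_eq_mul]
  push_cast
  ring

lemma evenProjPow_eq (n : ℕ) :
    evenProjPow par par' K n = ((1 / 2 : ℚ) : K) • (1 + signOp par par' K n) := by
  ext x y
  by_cases h : x = y
  · subst h
    simp only [evenProjPow, signOp, Matrix.diagonal_apply_eq, Matrix.smul_apply, Matrix.add_apply,
      Matrix.one_apply_eq, smul_eq_mul]
    change (if sgp par par' x = 1 then (1 : K) else 0) = _
    rcases sgp_eq (par := par) (par' := par') x with h | h <;> rw [h] <;> push_cast <;> norm_num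
  · simp [evenProjPow, signOp, Matrix.diagonal_apply_ne _ h, Matrix.one_apply_ne h]

lemma signOp_eq (n : ℕ) :
    signOp par par' K n =
      ((2 : ℚ) : K) • evenProjPow par par' K n + (((-1 : ℚ)) : K) • 1 := by
  rw [evenProjPow_eq]
  ext x y
  simp only [Matrix.smul_apply, Matrix.add_apply, smul_eq_mul]
  push_cast
  ring

lemma perm_one (n : ℕ) : perm par K (1 : Equiv.Perm (Fin n)) = 1 := by
  ext y x
  simp only [perm, Matrix.of_apply, Matrix.one_apply]
  refine if_congr ?_ ?_ rfl
  · simp
  · have : koszul par (1 : Equiv.Perm (Fin n)) x = 1 := by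
      unfold koszul
      refine Finset.prod_eq_one fun p _ => ?_
      rw [if_neg]
      rintro ⟨h1, h2, -⟩
      simp only [Equiv.Perm.coe_one, id_eq] at h2
      exact absurd h1 (not_lt.mpr h2.le)
    rw [this]; simp

/-- The operator of `c ⊗ 1`. -/
def actN (par : I → Bool) (J : Type) [DecidableEq J] (K : Type) [Field K] {n : ℕ}
    (c : Equiv.Perm (Fin n) → ℚ) : Matrix ((Fin n → I) × J) ((Fin n → I) × J) K :=
  act par K c ⊗ₖ (1 : Matrix J J K)

lemma actN_eq {n : ℕ} (c : Equiv.Perm (Fin n) → ℚ) :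
    actN par J K c = ∑ σ, (c σ : K) • (perm par K σ ⊗ₖ (1 : Matrix J J K)) := by
  ext x y
  simp only [actN, act, Matrix.kroneckerMap_apply, Matrix.sum_apply, Matrix.smul_apply,
    smul_eq_mul, Finset.sum_mul]
  refine Finset.sum_congr rfl fun σ _ => ?_
  ring

lemma actN_transpose {n : ℕ} (c : Equiv.Perm (Fin n) → ℚ) :
    (actN par J K c)ᵀ = ∑ σ, (c σ : K) • (perm par K σ⁻¹ ⊗ₖ (1 : Matrix J J K)) := by
  ext x y
  simp only [actN, act, Matrix.kroneckerMap_apply, Matrix.sum_apply, Matrix.smul_apply,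
    smul_eq_mul, Finset.sum_mul, Matrix.transpose_apply]
  refine Finset.sum_congr rfl fun σ _ => ?_
  rw [← perm_transpose, Matrix.transpose_apply]
  have : (1 : Matrix J J K) y.2 x.2 = (1 : Matrix J J K) x.2 y.2 := by
    simp only [Matrix.one_apply, eq_comm]
  rw [this]; ring

namespace Corr

variable (W : Corr K I J par par')

lemma one_mem (n : ℕ) : (1 : Matrix ((Fin n → I) × J) ((Fin n → I) × J) K) ∈ W.cls n := by
  have := W.perm_mem n 1
  rwa [perm_one, Matrix.one_kronecker_one] at this

lemma sum_mem {n : ℕ} {ι : Type} (s : Finset ι)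
    (f : ι → Matrix ((Fin n → I) × J) ((Fin n → I) × J) K)
    (h : ∀ i ∈ s, f i ∈ W.cls n) : ∑ i ∈ s, f i ∈ W.cls n := by
  classical
  induction s using Finset.induction_on with
  | empty =>
    rw [Finset.sum_empty]
    have := W.smul_mem n 0 _ (W.one_mem n)
    simpa using this
  | insert a s ha ih =>
    rw [Finset.sum_insert ha]
    exact W.add_mem _ _ _ (h a (Finset.mem_insert_self _ _))
      (ih fun i hi => h i (Finset.mem_insert_of_mem hi))

lemma act_mem {n : ℕ} (c : Equiv.Perm (Fin n) → ℚ) : actN par J K c ∈ W.cls n := by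
  rw [actN_eq]
  exact W.sum_mem _ _ fun σ _ => W.smul_mem _ _ _ (W.perm_mem n σ)

lemma act_transpose_mem {n : ℕ} (c : Equiv.Perm (Fin n) → ℚ) :
    (actN par J K c)ᵀ ∈ W.cls n := by
  rw [actN_transpose]
  exact W.sum_mem _ _ fun σ _ => W.smul_mem _ _ _ (W.perm_mem n _)

lemma signOneM_mem_iff : signOne par K ∈ W.clsM ↔ W.CplusM := by
  unfold CplusM
  constructor
  · intro h
    rw [evenProj_eq]
    exact W.smulM_mem _ _ (W.addM_mem _ _ W.oneM_mem h)
  · intro h
    rw [signOne_eq]
    exact W.addM_mem _ _ (W.smulM_mem _ _ h) (W.smulM_mem _ _ W.oneM_mem)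

lemma signOneN_mem_iff : signOne par' K ∈ W.clsN ↔ W.CplusN := by
  unfold CplusN
  constructor
  · intro h
    rw [evenProj_eq]
    exact W.smulN_mem _ _ (W.addN_mem _ _ W.oneN_mem h)
  · intro h
    rw [signOne_eq]
    exact W.addN_mem _ _ (W.smulN_mem _ _ h) (W.smulN_mem _ _ W.oneN_mem)

lemma signOp_mul_act_mem {n : ℕ} {c : Equiv.Perm (Fin n) → ℚ} (h : W.CplusOn c) :
    signOp par par' K n * actN par J K c ∈ W.cls n := by
  rw [signOp_eq, Matrix.add_mul, Matrix.smul_mul, Matrix.smul_mul, Matrix.one_mul]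
  exact W.add_mem _ _ _ (W.smul_mem _ _ _ h) (W.smul_mem _ _ _ (W.act_mem c))

end Corr

/-- the number `sum_(r, z) c(z, (i, r))²`. -/
def diagQ (par : I → Bool) {n : ℕ} (c : Equiv.Perm (Fin (n + 1)) → ℚ) (i : I) : ℚ :=
  ∑ r : Fin n → I, ∑ z : Fin (n + 1) → I, actQ par c z (Fin.cons i r) ^ 2

lemma diagQ_nonneg {n : ℕ} (c : Equiv.Perm (Fin (n + 1)) → ℚ) (i : I) : 0 ≤ diagQ par c i :=
  Finset.sum_nonneg fun _ _ => Finset.sum_nonneg fun _ _ => sq_nonneg _

lemma diagQ_relabel {n : ℕ} (c : Equiv.Perm (Fin (n + 1)) → ℚ) (i : I) (τ : Equiv.Perm I)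
    (hτ : ∀ i, par (τ i) = par i) : diagQ par c (τ i) = diagQ par c i := by
  unfold diagQ
  symm
  refine Fintype.sum_equiv (Equiv.arrowCongr (Equiv.refl (Fin n)) τ) _ _ fun r => ?_
  refine Fintype.sum_equiv (Equiv.arrowCongr (Equiv.refl (Fin (n + 1))) τ) _ _ fun z => ?_
  congr 1
  rw [← actQ_relabel c z (Fin.cons i r) τ hτ]
  congr 1
  ext k
  refine Fin.cases ?_ (fun k => ?_) k <;> simp [Equiv.arrowCongr]

lemma diagQ_congr {n : ℕ} (c : Equiv.Perm (Fin (n + 1)) → ℚ) {i j : I} (h : par i = par j) :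
    diagQ par c i = diagQ par c j := by
  rw [← diagQ_relabel c i (Equiv.swap i j), Equiv.swap_apply_left]
  intro k
  by_cases hk : k = i
  · subst hk; rw [Equiv.swap_apply_left, h]
  · by_cases hk' : k = j
    · subst hk'; rw [Equiv.swap_apply_right, h]
    · rw [Equiv.swap_apply_of_ne_of_ne hk hk']

lemma sum_cons {n : ℕ} (f : (Fin (n + 1) → I) → ℚ) :
    ∑ x, f x = ∑ i : I, ∑ r : Fin n → I, f (Fin.cons i r) := by
  rw [← Fintype.sum_prod_type']
  refine (Fintype.sum_equiv (Fin.consEquiv fun _ => I) _ _ fun p => ?_).symm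
  rfl

lemma exists_diagQ_pos {n : ℕ} {c : Equiv.Perm (Fin (n + 1)) → ℚ} (hc : act par K c ≠ 0) :
    ∃ i, 0 < diagQ par c i := by
  by_contra hcon
  push Not at hcon
  apply hc
  have h0 : ∀ i, diagQ par c i = 0 := fun i => le_antisymm (hcon i) (diagQ_nonneg c i)
  ext z x
  rw [act_apply, Matrix.zero_apply]
  have hx : x = Fin.cons (x 0) (Fin.tail x) := (Fin.cons_self_tail x).symm
  have h1 := h0 (x 0)
  unfold diagQ at h1
  rw [Finset.sum_eq_zero_iff_of_nonneg
    (fun _ _ => Finset.sum_nonneg fun _ _ => sq_nonneg _)] at h1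
  have h2 := h1 (Fin.tail x) (Finset.mem_univ _)
  rw [Finset.sum_eq_zero_iff_of_nonneg (fun _ _ => sq_nonneg _)] at h2
  have h3 := h2 z (Finset.mem_univ _)
  rw [← hx] at h3
  have h4 : actQ par c z x = 0 := by simpa using h3
  rw [h4]; simp

lemma actN_apply {n : ℕ} (c : Equiv.Perm (Fin n) → ℚ) (z x : (Fin n → I) × J) :
    actN par J K c z x = if z.2 = x.2 then ((actQ par c z.1 x.1 : ℚ) : K) else 0 := by
  rw [actN, Matrix.kroneckerMap_apply, act_apply, Matrix.one_apply]
  split <;> simp

/-- The entries of `cᵀ s c`. -/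
lemma entry {n : ℕ} (c : Equiv.Perm (Fin n) → ℚ) (x y : (Fin n → I) × J) :
    ((actN par J K c)ᵀ * (signOp par par' K n * actN par J K c)) x y =
      if x.2 = y.2 then ((((sg par' x.2 : ℤ) : ℚ) *
        ∑ z, actQ par c z x.1 * ((sgn par z : ℤ) : ℚ) * actQ par c z y.1 : ℚ) : K) else 0 := by
  rw [Matrix.mul_apply, Fintype.sum_prod_type]
  have h1 : ∀ z : Fin n → I, ∑ j : J, (actN par J K c)ᵀ x (z, j) *
      (signOp par par' K n * actN par J K c) (z, j) y =
      if x.2 = y.2 then ((sg par' x.2 : ℤ) : K) * (((actQ par c z x.1 : ℚ) : K) *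
        ((sgn par z : ℤ) : K) * ((actQ par c z y.1 : ℚ) : K)) else 0 := by
    intro z
    rw [Finset.sum_eq_single x.2]
    · rw [Matrix.transpose_apply, signOp, Matrix.diagonal_mul, actN_apply, actN_apply, if_pos rfl]
      by_cases h : x.2 = y.2
      · rw [if_pos h, if_pos h]
        simp only [sgp]
        push_cast
        ring
      · rw [if_neg h, if_neg h]; simp
    · intro j _ hj
      rw [Matrix.transpose_apply, actN_apply, if_neg hj, zero_mul]
    · intro h; exact absurd (Finset.mem_univ _) h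
  simp only [h1]
  by_cases h : x.2 = y.2
  · simp only [if_pos h]
    push_cast
    rw [Finset.mul_sum]
  · simp [if_neg h]

/-- The partial supertrace of `cᵀ s c` to `M`. -/
lemma ptr_eq {n : ℕ} (c : Equiv.Perm (Fin (n + 1)) → ℚ) :
    ptr par par' ((actN par J K c)ᵀ * (signOp par par' K (n + 1) * actN par J K c)) =
      Matrix.diagonal fun a : I =>
        ((((sg par a : ℤ) : ℚ) * ((Fintype.card J : ℚ) * diagQ par c a) : ℚ) : K) := by
  ext a b
  simp only [ptr, Matrix.of_apply, entry, if_true]
  by_cases hab : a = b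
  · subst hab
    rw [Matrix.diagonal_apply_eq]
    have h0 : ∀ r : Fin n → I, ∀ j : J, (((sgn par r * sg par' j : ℤ)) : K) *
        ((((sg par' j : ℤ) : ℚ) * ∑ z, actQ par c z (Fin.cons a r) * ((sgn par z : ℤ) : ℚ) *
          actQ par c z (Fin.cons a r) : ℚ) : K) =
        ((((sg par a : ℤ) : ℚ) * ∑ z, actQ par c z (Fin.cons a r) ^ 2 : ℚ) : K) := by
      intro r j
      have h2 : ((sg par' j : ℤ) : K) * ((sg par' j : ℤ) : K) = 1 := by
        exact_mod_cast congrArg (fun t : ℤ => (t : K)) (sg_mul_self (par := par') j)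
      have h3 : ∀ z, ((sgn par r : ℤ) : K) * (((actQ par c z (Fin.cons a r) : ℚ) : K) *
          ((sgn par z : ℤ) : K) * ((actQ par c z (Fin.cons a r) : ℚ) : K)) =
          ((sg par a : ℤ) : K) * ((actQ par c z (Fin.cons a r) : ℚ) : K) ^ 2 := by
        intro z
        by_cases hz : actQ par c z (Fin.cons a r) = 0
        · rw [hz]; simp
        · have hs := sgn_of_ne hz
          rw [sgn_cons] at hs
          have h4 : ((sgn par z : ℤ) : K) = ((sg par a : ℤ) : K) * ((sgn par r : ℤ) : K) := by
            rw [hs, Int.cast_mul]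
          have h5 : ((sgn par r : ℤ) : K) * ((sgn par r : ℤ) : K) = 1 := by
            exact_mod_cast congrArg (fun t : ℤ => (t : K)) (sgn_mul_self (par := par) r)
          rw [h4]
          linear_combination ((actQ par c z (Fin.cons a r) : ℚ) : K) ^ 2 *
            ((sg par a : ℤ) : K) * h5
      push_cast
      rw [mul_comm ((sgn par r : ℤ) : K), mul_assoc, mul_left_comm ((sgn par r : ℤ) : K),
        ← mul_assoc, h2, one_mul, Finset.mul_sum, Finset.mul_sum]
      exact Finset.sum_congr rfl fun z _ => h3 z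
    simp only [h0]
    simp only [Finset.sum_const, Finset.card_univ, nsmul_eq_mul]
    unfold diagQ
    push_cast
    rw [← Finset.mul_sum, ← Finset.mul_sum]
    ring
  · rw [Matrix.diagonal_apply_ne _ hab]
    refine Finset.sum_eq_zero fun r _ => Finset.sum_eq_zero fun j _ => ?_
    have : (∑ z, actQ par c z (Fin.cons a r) * ((sgn par z : ℤ) : ℚ) *
        actQ par c z (Fin.cons b r) : ℚ) = 0 := by
      refine Finset.sum_eq_zero fun z _ => ?_
      by_contra hz
      have hz1 : actQ par c z (Fin.cons a r) ≠ 0 := by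
        intro h; apply hz; rw [h]; ring
      have hz2 : actQ par c z (Fin.cons b r) ≠ 0 := by
        intro h; apply hz; rw [h]; ring
      obtain ⟨σ, h1⟩ := exists_perm_of_ne hz1
      obtain ⟨τ, h2⟩ := exists_perm_of_ne hz2
      exact hab (head_eq h1 h2)
    rw [this]; simp

/-- The partial supertrace of `cᵀ s c` to `N`. -/
lemma ptrN_eq {n : ℕ} (c : Equiv.Perm (Fin n) → ℚ) :
    ptrN par ((actN par J K c)ᵀ * (signOp par par' K n * actN par J K c)) =
      ((∑ x : Fin n → I, ∑ z : Fin n → I, actQ par c z x ^ 2 : ℚ) : K) • signOne par' K := by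
  ext a b
  simp only [ptrN, Matrix.of_apply, entry]
  by_cases hab : a = b
  · subst hab
    simp only [if_true, Matrix.smul_apply, signOne, Matrix.diagonal_apply_eq, smul_eq_mul]
    push_cast
    rw [Finset.sum_mul]
    refine Finset.sum_congr rfl fun x _ => ?_
    rw [Finset.mul_sum, Finset.mul_sum, Finset.sum_mul]
    refine Finset.sum_congr rfl fun z _ => ?_
    by_cases hz : actQ par c z x = 0
    · rw [hz]; simp
    · have hs := sgn_of_ne hz
      have h5 : ((sgn par x : ℤ) : K) * ((sgn par x : ℤ) : K) = 1 := by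
        exact_mod_cast congrArg (fun t : ℤ => (t : K)) (sgn_mul_self (par := par) x)
      rw [hs]
      linear_combination ((actQ par c z x : ℚ) : K) ^ 2 * ((sg par' a : ℤ) : K) * h5
  · simp [if_neg hab, signOne, Matrix.diagonal_apply_ne _ hab]

theorem Corr.cplusN_of_on (W : Corr K I J par par') {n : ℕ} {c : Equiv.Perm (Fin n) → ℚ}
    (hc : act par K c ≠ 0) (h : W.CplusOn c) : W.CplusN := by
  have hP := W.ptrN_mem _ _
    (W.mul_mem _ _ _ (W.act_transpose_mem c) (W.signOp_mul_act_mem h))
  rw [ptrN_eq] at hP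
  set q : ℚ := ∑ x : Fin n → I, ∑ z : Fin n → I, actQ par c z x ^ 2 with hq
  have hq0 : q ≠ 0 := by
    intro h0
    apply hc
    rw [hq, Finset.sum_eq_zero_iff_of_nonneg
      (fun _ _ => Finset.sum_nonneg fun _ _ => sq_nonneg _)] at h0
    ext z x
    have h2 := h0 x (Finset.mem_univ _)
    rw [Finset.sum_eq_zero_iff_of_nonneg (fun _ _ => sq_nonneg _)] at h2
    have h4 : actQ par c z x = 0 := by simpa using h2 z (Finset.mem_univ _)
    rw [act_apply, h4]; simp
  rw [← W.signOneN_mem_iff]
  have h1 := W.smulN_mem (q⁻¹) _ hP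
  rw [smul_smul, ← Rat.cast_mul, inv_mul_cancel₀ hq0, Rat.cast_one, one_smul] at h1
  exact h1

theorem Corr.cplusM_of_on (W : Corr K I J par par') [Nonempty J] {n : ℕ}
    {c : Equiv.Perm (Fin (n + 1)) → ℚ} (hc : act par K c ≠ 0) (h : W.CplusOn c) : W.CplusM := by
  have hP := W.ptr_mem _ _
    (W.mul_mem _ _ _ (W.act_transpose_mem c) (W.signOp_mul_act_mem h))
  rw [ptr_eq] at hP
  have hJ : (0 : ℚ) < Fintype.card J := by exact_mod_cast Fintype.card_pos
  set D : I → ℚ := fun a => (Fintype.card J : ℚ) * diagQ par c a with hD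
  have D_nonneg : ∀ i, 0 ≤ D i := fun i => mul_nonneg hJ.le (diagQ_nonneg c i)
  have D_congr : ∀ {i j : I}, par i = par j → D i = D j := by
    intro i j hij
    simp only [hD, diagQ_congr c hij]
  obtain ⟨i0, hi0'⟩ := exists_diagQ_pos hc
  have hi0 : 0 < D i0 := mul_pos hJ hi0'
  -- the two values
  obtain ⟨α, β, hαβ, hval⟩ : ∃ α β : ℚ, 0 < α + β ∧
      ∀ i, ((sg par i : ℤ) : ℚ) * D i = if par i = false then α else -β := by
    by_cases hE : ∃ i, par i = false
    · obtain ⟨e, he⟩ := hE
      by_cases hO : ∃ i, par i = true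
      · obtain ⟨o, ho⟩ := hO
        refine ⟨D e, D o, ?_, ?_⟩
        · cases hp : par i0 with
          | false =>
            have := D_congr (hp.trans he.symm)
            have h2 := D_nonneg o
            linarith
          | true =>
            have := D_congr (hp.trans ho.symm)
            have h2 := D_nonneg e
            linarith
        · intro i
          cases hp : par i with
          | false => rw [D_congr (hp.trans he.symm)]; simp [sg, hp]
          | true => rw [D_congr (hp.trans ho.symm)]; simp [sg, hp]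
      · push Not at hO
        have hO' : ∀ i, par i = false := fun i => by simpa using hO i
        refine ⟨D i0, 0, by linarith, fun i => ?_⟩
        rw [D_congr ((hO' i).trans (hO' i0).symm)]
        simp [sg, hO' i]
    · push Not at hE
      have hE' : ∀ i, par i = true := fun i => by simpa using hE i
      refine ⟨0, D i0, by linarith, fun i => ?_⟩
      rw [D_congr ((hE' i).trans (hE' i0).symm)]
      simp [sg, hE' i]
  have key : evenProj par K = ((1 / (α + β) : ℚ) : K) •
      ((Matrix.diagonal fun a : I => ((((sg par a : ℤ) : ℚ) * D a : ℚ) : K)) +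
        ((β : ℚ) : K) • 1) := by
    have hne : ((α + β : ℚ) : K) ≠ 0 := by
      exact_mod_cast hαβ.ne'
    ext a b
    by_cases hab : a = b
    · subst hab
      simp only [evenProj, Matrix.diagonal_apply_eq, Matrix.smul_apply, Matrix.add_apply,
        Matrix.one_apply_eq, smul_eq_mul, hval]
      by_cases h1 : par a = false
      · rw [if_pos h1, if_pos h1]
        push_cast
        push_cast at hne
        field_simp
      · rw [if_neg h1, if_neg h1]
        push_cast
        ring
    · simp [evenProj, Matrix.diagonal_apply_ne _ hab, Matrix.one_apply_ne hab]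
  unfold Corr.CplusM
  rw [key]
  exact W.smulM_mem _ _ (W.addM_mem _ _ hP (W.smulM_mem _ _ W.oneM_mem))

lemma signOp_succ (n : ℕ) :
    signOp par par' K (n + 1) = tens (signOne par K) (signOp par par' K n) := by
  ext y x
  obtain ⟨y, j⟩ := y
  obtain ⟨x, i⟩ := x
  simp only [tens, Matrix.of_apply, signOp, signOne]
  by_cases h : (y, j) = (x, i)
  · obtain ⟨rfl, rfl⟩ := Prod.mk.inj h
    rw [Matrix.diagonal_apply_eq, Matrix.diagonal_apply_eq, Matrix.diagonal_apply_eq]
    have : sgn par y = sg par (y 0) * sgn par (Fin.tail y) := by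
      conv_lhs => rw [← Fin.cons_self_tail y]
      rw [sgn_cons]
    simp only [sgp]
    rw [this]; push_cast; ring
  · rw [Matrix.diagonal_apply_ne _ h]
    by_cases h0 : y 0 = x 0
    · have h1 : (Fin.tail y, j) ≠ (Fin.tail x, i) := by
        intro ht
        obtain ⟨ht1, ht2⟩ := Prod.mk.inj ht
        apply h
        rw [← Fin.cons_self_tail y, ← Fin.cons_self_tail x, h0, ht1, ht2]
      rw [Matrix.diagonal_apply_ne _ h1]; simp
    · rw [Matrix.diagonal_apply_ne _ h0]; simp

theorem Corr.signOp_all (W : Corr K I J par par') (hM : W.CplusM) (hN : W.CplusN) (n : ℕ) :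
    signOp par par' K n ∈ W.cls n := by
  rw [← W.signOneM_mem_iff] at hM
  rw [← W.signOneN_mem_iff] at hN
  induction n with
  | zero =>
    have : signOp par par' K 0 =
        (1 : Matrix (Fin 0 → I) (Fin 0 → I) K) ⊗ₖ signOne par' K := by
      ext x y
      obtain ⟨x, i⟩ := x
      obtain ⟨y, j⟩ := y
      have hxy : x = y := Subsingleton.elim x y
      subst hxy
      rw [Matrix.kroneckerMap_apply]
      by_cases hij : i = j
      · subst hij
        simp [signOp, signOne, sgp, sgn]
      · have : (x, i) ≠ (x, j) := fun h => hij (Prod.mk.inj h).2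
        rw [signOp, Matrix.diagonal_apply_ne _ this, signOne, Matrix.diagonal_apply_ne _ hij]
        simp
    rw [this]
    exact W.zero_mem _ hN
  | succ n ih =>
    rw [signOp_succ]
    exact W.tens_mem n _ _ hM ih

theorem Corr.on_all (W : Corr K I J par par') (hM : W.CplusM) (hN : W.CplusN) {n : ℕ}
    (c : Equiv.Perm (Fin n) → ℚ) : W.CplusOn c := by
  refine W.mul_mem _ _ _ ?_ (W.act_mem c)
  rw [evenProjPow_eq]
  exact W.smul_mem _ _ _ (W.add_mem _ _ _ (W.one_mem n) (W.signOp_all hM hN n))

/-- The identity of `M` does not act as zero. -/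
lemma act_single_ne [Nonempty I] :
    act par K (fun σ : Equiv.Perm (Fin 1) => if σ = 1 then 1 else 0) ≠ 0 := by
  have : act par K (fun σ : Equiv.Perm (Fin 1) => if σ = 1 then 1 else 0) = 1 := by
    unfold act
    rw [Finset.sum_eq_single 1]
    · simp [perm_one]
    · intro σ _ hσ
      simp [hσ]
    · intro h; exact absurd (Finset.mem_univ _) h
  rw [this]
  exact one_ne_zero

end Pool.Agent.H97.CP
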